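import Pool.Agent.R725.RatExample

set_option autoImplicit false

/-!
# MP_da3f29_al: a connected unipotent group without rational structures on `k[U_r]`

Let `q = p ^ r`. The group `U` is the affine 3-space with the law
`(x, y, z) (x', y', z') = (x + x', y + y', z + z' + x y'^q)`; it is connected, smooth, unipotent and
defined over the prime field. Its `r`-th Frobenius kernel is commutative, but there is no rational
`U`-module at all whose restriction to `U_r` is the regular module `k[U_r]`. The proof: if `M` is
such a module, then `M* = λ · Dist(U_r)` is free of rank one over `Dist(U_r)`; writing the action of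
the `q`-th divided powers `P_q`, `Q_q` in the directions `x`, `y` on `λ` by elements `W`, `W'` of
`Dist(U_r)` we get `λ [P_q, Q_q] = λ [W, Q_q]`. Here `[P_q, Q_q] = S_1 P_(q-1)`, while `[W, Q_q]` is a
combination of products which involve only the divided powers `P_0, …, P_(q-2)`.
-/

namespace Pool.Agent.Results.MP_da3f29_al.NoRationalStructure

open TensorProduct Pool.Agent.R725.Comod Pool.Agent.R725.RatExample

universe u v w w'

theorem result (p r : ℕ) [Fact p.Prime] (hr : 1 ≤ r) (F : Type u) [Field F]
    (_hF : Nat.card F = p ^ r) (k : Type v) [Field k] [IsAlgClosed k] [CharP k p] [Algebra F k] :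
    ∃ (A : Type u) (_ : CommRing A) (_ : HopfAlgebra F A),
      Nonempty (A ≃ₐ[F] MvPolynomial (Fin 3) F) ∧ IsUnipotent F A ∧
      ¬ HasRationalStructure.{w, w'} k (k ⊗[F] A) p r := by
  have hchar : CharP F p := ((algebraMap F k).charP_iff (algebraMap F k).injective p).2 inferInstance
  refine ⟨Coord F p r, inferInstance, inferInstance, ⟨(equivU F p r).symm⟩, isUnipotent F p r, ?_⟩
  rintro ⟨C, _, _, π, M, _, _, ρ, hπ, hρ, hLR⟩
  have key : ¬ RestrictsTo π ρ (Coalgebra.comul (R := k) (A := C)) := by
    rintro ⟨φ, hφ⟩
    exact main p r _ _ _ (comulU0 F p r k) (comulU1 F p r k) (comulU2 F p r k)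
      (counitU' F p r k 0) (counitU' F p r k 1) (counitU' F p r k 2) (basisU F p r k)
      (basisU_apply F p r k) (by omega) ρ π hπ hρ φ hφ
  rcases hLR with h | h
  · exact key (right_of_left π ρ h)
  · exact key h

end Pool.Agent.Results.MP_da3f29_al.NoRationalStructure
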